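import Pool.Agent.helper34.NTA.Spec

/-!
# Project NTA (MP_4536c8_co), row ROT: the rotation of the incidence graph
-/

set_option autoImplicit false

namespace Pool.Agent.NTA

open Equiv

section

variable {H : Type} [Group H] {s : ZMod 10 → H} {sg : H →* ℤˣ}

open Classical in
/-- the rotation as a map -/
noncomputable def ROT_fun (s : ZMod 10 → H) (sg : H →* ℤˣ) : II H × Bool → II H × Bool
  | (Sum.inl (h, c), false) => (Sum.inl (h, if sg h = 1 then c + 1 else c - 1), false)
  | (Sum.inr (h, c), false) => (Sum.inr (h * s c.1, c), false)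
  | (Sum.inl (h, c), true) => if hc : KL c then (Sum.inr (h, ⟨c, hc⟩), true) else (Sum.inl (h * s c, c), true)
  | (Sum.inr (h, c), true) => (Sum.inl (h, c.1), true)

open Classical in
/-- its inverse -/
noncomputable def ROT_inv (s : ZMod 10 → H) (sg : H →* ℤˣ) : II H × Bool → II H × Bool
  | (Sum.inl (h, c), false) => (Sum.inl (h, if sg h = 1 then c - 1 else c + 1), false)
  | (Sum.inr (h, c), false) => (Sum.inr (h * s c.1, c), false)
  | (Sum.inl (h, c), true) => if hc : KL c then (Sum.inr (h, ⟨c, hc⟩), true) else (Sum.inl (h * s c, c), true)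
  | (Sum.inr (h, c), true) => (Sum.inl (h, c.1), true)

theorem ROT_tK (h : H) (c : ZMod 10) (hc : KL c) :
    ROT_fun s sg (Sum.inl (h, c), true) = (Sum.inr (h, ⟨c, hc⟩), true) := by
  change (if hc : KL c then _ else _) = _
  rw [dif_pos hc]

theorem ROT_tR (h : H) (c : ZMod 10) (hc : ¬ KL c) :
    ROT_fun s sg (Sum.inl (h, c), true) = (Sum.inl (h * s c, c), true) := by
  change (if hc : KL c then _ else _) = _
  rw [dif_neg hc]

theorem ROT_iK (h : H) (c : ZMod 10) (hc : KL c) :
    ROT_inv s sg (Sum.inl (h, c), true) = (Sum.inr (h, ⟨c, hc⟩), true) := by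
  change (if hc : KL c then _ else _) = _
  rw [dif_pos hc]

theorem ROT_iR (h : H) (c : ZMod 10) (hc : ¬ KL c) :
    ROT_inv s sg (Sum.inl (h, c), true) = (Sum.inl (h * s c, c), true) := by
  change (if hc : KL c then _ else _) = _
  rw [dif_neg hc]

/-- the rotation -/
noncomputable def ROT_perm (hG : Grp H s sg) : Perm (II H × Bool) where
  toFun := ROT_fun s sg
  invFun := ROT_inv s sg
  left_inv := by
    rintro ⟨⟨h, c⟩ | ⟨h, c, hc⟩, b⟩ <;> cases b
    · change ROT_inv s sg (Sum.inl (h, if sg h = 1 then c + 1 else c - 1), false) = _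
      change (Sum.inl (h, if sg h = 1 then (if sg h = 1 then c + 1 else c - 1) - 1 else
        (if sg h = 1 then c + 1 else c - 1) + 1), false) = _
      split_ifs <;> simp
    · by_cases hc : KL c
      · rw [ROT_tK h c hc]
        rfl
      · rw [ROT_tR h c hc, ROT_iR _ c hc, mul_s_mul_s hG]
    · exact congrArg (fun z => ((Sum.inr (z, ⟨c, hc⟩), false) : II H × Bool)) (mul_s_mul_s hG h c)
    · change ROT_inv s sg (Sum.inl (h, c), true) = _
      rw [ROT_iK h c hc]
  right_inv := by
    rintro ⟨⟨h, c⟩ | ⟨h, c, hc⟩, b⟩ <;> cases b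
    · change ROT_fun s sg (Sum.inl (h, if sg h = 1 then c - 1 else c + 1), false) = _
      change (Sum.inl (h, if sg h = 1 then (if sg h = 1 then c - 1 else c + 1) + 1 else
        (if sg h = 1 then c - 1 else c + 1) - 1), false) = _
      split_ifs <;> simp
    · by_cases hc : KL c
      · rw [ROT_iK h c hc]
        rfl
      · rw [ROT_iR h c hc, ROT_tR _ c hc, mul_s_mul_s hG]
    · exact congrArg (fun z => ((Sum.inr (z, ⟨c, hc⟩), false) : II H × Bool)) (mul_s_mul_s hG h c)
    · change ROT_fun s sg (Sum.inl (h, c), true) = _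
      rw [ROT_tK h c hc]

theorem ROT_rot (hG : Grp H s sg) : Rot s sg (ROT_perm hG) where
  big := fun h c => rfl
  sml := fun h c => rfl
  edR := fun h c hc => ROT_tR (sg := sg) h c hc
  edK := fun h c hc => ROT_tK (sg := sg) h c hc
  edY := fun h c => rfl

/-- a function invariant under a permutation is constant on its cycles -/
theorem ROT_inva {D T : Type} (σ : Perm D) (f : D → T) (hf : ∀ d, f (σ d) = f d) {d d' : D}
    (h : σ.SameCycle d d') : f d = f d' := by
  obtain ⟨k, rfl⟩ := h
  have key : ∀ k : ℤ, f ((σ ^ k) d) = f d := by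
    intro k
    induction k using Int.induction_on with
    | zero => rfl
    | succ n ih => rw [add_comm, zpow_add, zpow_one, Perm.mul_apply, hf, ih]
    | pred n ih =>
      rw [← ih]
      have h1 : (σ ^ (-(n : ℤ))) d = σ ((σ ^ (-(n : ℤ) - 1)) d) := by
        rw [← Perm.mul_apply, ← zpow_one_add]
        congr 2
        ring
      rw [h1, hf]
  exact (key k).symm

theorem ROT_pow (σ : Perm (II H × Bool)) (hσ : Rot s sg σ) (h : H) (c : ZMod 10) (m : ℕ) :
    (sg h = 1 → (σ ^ m) (Sum.inl (h, c), false) = (Sum.inl (h, c + m), false)) ∧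
    (sg h ≠ 1 → (σ ^ m) (Sum.inl (h, c), false) = (Sum.inl (h, c - m), false)) := by
  induction m with
  | zero =>
    constructor <;> intro _ <;> simp
  | succ m ih =>
    constructor
    · intro h1
      rw [pow_succ', Perm.mul_apply, ih.1 h1, hσ.big, if_pos h1]
      push_cast
      rw [add_assoc]
    · intro h1
      rw [pow_succ', Perm.mul_apply, ih.2 h1, hσ.big, if_neg h1]
      push_cast
      rw [sub_sub]

theorem ROT_one (σ : Perm (II H × Bool)) {d d' : II H × Bool} (h : σ d = d') : σ.SameCycle d d' :=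
  ⟨1, by rw [zpow_one]; exact h⟩

end

theorem ROT : ROT_stmt := by
  intro H _ _ s sg hG
  have hR := ROT_rot hG
  refine ⟨ROT_perm hG, hR, ?_⟩
  generalize ROT_perm hG = σ at hR
  intro d d'
  constructor
  · refine fun h => ROT_inva σ (GH hG).src ?_ h
    rintro ⟨⟨h, c⟩ | ⟨h, c, hc⟩, b⟩ <;> cases b
    · rw [hR.big]
      rfl
    · by_cases hc : KL c
      · rw [hR.edK h c hc]
        rfl
      · rw [hR.edR h c hc]
        exact congrArg Sum.inr (ee_mul hG h c hc)
    · rw [hR.sml]
      exact congrArg (fun y => Sum.inl (Sum.inr y)) (yy_mul hG h c hc)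
    · rw [hR.edY]
      rfl
  · rcases d with ⟨⟨h, c⟩ | ⟨h, c, hc⟩, b⟩ <;> rcases d' with ⟨⟨h', c'⟩ | ⟨h', c', hc'⟩, b'⟩ <;> cases b <;> cases b' <;>
      intro he
    · -- two half edges at a big vertex
      have h1 : h = h' := Sum.inl.inj (Sum.inl.inj he)
      subst h1
      by_cases h2 : sg h = 1
      · refine ⟨((c' - c).val : ℤ), ?_⟩
        rw [zpow_natCast, (ROT_pow σ hR h c _).1 h2, ZMod.natCast_zmod_val, add_sub_cancel]
      · refine ⟨((c - c').val : ℤ), ?_⟩
        rw [zpow_natCast, (ROT_pow σ hR h c _).2 h2, ZMod.natCast_zmod_val, sub_sub_cancel]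
    · exact absurd he Sum.inl_ne_inr
    · exact absurd he Sum.inr_ne_inl
    · have h1 : ee hG h c = ee hG h' c' := Sum.inr.inj he
      have h2 : c = c' := by rw [← ee_snd hG h c, ← ee_snd hG h' c', h1]
      subst h2
      by_cases hc : KL c
      · rw [ee_K hG h c hc, ee_K hG h' c hc] at h1
        have h3 : h = h' := congrArg (fun z => z.1.1) h1
        subst h3
        exact Perm.SameCycle.refl _ _
      · rw [ee_R hG h c hc, ee_R hG h' c hc] at h1
        rcases nrm_eq hG h h' c (congrArg (fun z => z.1.1) h1) with h3 | h3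
        · subst h3
          exact Perm.SameCycle.refl _ _
        · subst h3
          exact ROT_one σ (hR.edR h c hc)
    · exact absurd (Sum.inl.inj he) Sum.inl_ne_inr
    · exact absurd he Sum.inl_ne_inr
    · exact absurd he Sum.inr_ne_inl
    · have h1 : ee hG h c = ee hG h' c' := Sum.inr.inj he
      have h2 : c = c' := by rw [← ee_snd hG h c, ← ee_snd hG h' c', h1]
      subst h2
      rw [ee_K hG h c hc', ee_K hG h' c hc'] at h1
      have h3 : h = h' := congrArg (fun z => z.1.1) h1
      subst h3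
      exact ROT_one σ (hR.edK h c hc')
    · exact absurd (Sum.inl.inj he) Sum.inr_ne_inl
    · exact absurd he Sum.inl_ne_inr
    · exact absurd he Sum.inr_ne_inl
    · have h1 : ee hG h c = ee hG h' c' := Sum.inr.inj he
      have h2 : c = c' := by rw [← ee_snd hG h c, ← ee_snd hG h' c', h1]
      subst h2
      rw [ee_K hG h c hc, ee_K hG h' c hc] at h1
      have h3 : h = h' := congrArg (fun z => z.1.1) h1
      subst h3
      exact ROT_one σ (hR.edY h ⟨c, hc⟩)
    · have h1 : yy hG h c hc = yy hG h' c' hc' := Sum.inr.inj (Sum.inl.inj he)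
      obtain ⟨rfl, h3⟩ := yy_eq hG h h' c c' hc hc' h1
      rcases h3 with h3 | h3
      · subst h3
        exact Perm.SameCycle.refl _ _
      · subst h3
        exact ROT_one σ (hR.sml h ⟨c, hc⟩)
    · exact absurd he Sum.inl_ne_inr
    · exact absurd he Sum.inr_ne_inl
    · have h1 : ee hG h c = ee hG h' c' := Sum.inr.inj he
      have h2 : c = c' := by rw [← ee_snd hG h c, ← ee_snd hG h' c', h1]
      subst h2
      rw [ee_K hG h c hc, ee_K hG h' c hc'] at h1
      have h3 : h = h' := congrArg (fun z => z.1.1) h1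
      subst h3
      exact Perm.SameCycle.refl _ _

end Pool.Agent.NTA
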